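import Pool.Agent.Y6.F.Stm

/-!
# The weights of the concrete system (job EF-WTM, port of `Pool/Agent/Y161/EM/WTM.lean`)
-/

set_option autoImplicit false

open Set Filter Topology
open scoped ComplexConjugate

namespace Pool.Agent.Y67.EF.WTM

open Pool.Agent.Y6.F
open Pool.Agent.Y6.M (qd mq Kz Ker Adm Dat TSol Wt KSol cX cY Uth εc x0 Mains MDat Z3 C3 Coef dt cr
  cj kc nsq len adv leray Kop IsField IsSol energy enstr Md hs br Frame cK sgz)

lemma nsq_nonneg (k : Z3) : 0 ≤ nsq k := Finset.sum_nonneg fun j _ => sq_nonneg (k j)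

lemma nsq_one (k : Z3) (hk : k ≠ 0) : 1 ≤ nsq k := by
  obtain ⟨j, hj⟩ := Function.ne_iff.1 hk
  have h1 : 1 ≤ k j ^ 2 := by
    have h2 : k j ≠ 0 := hj
    have h3 : 0 < k j ^ 2 := by positivity
    omega
  have h2 : k j ^ 2 ≤ nsq k :=
    Finset.single_le_sum (f := fun j => k j ^ 2) (fun j _ => sq_nonneg (k j)) (Finset.mem_univ j)
  exact h1.trans h2

lemma NM_one (i : Md) : 1 ≤ NM i := by
  unfold NM
  exact_mod_cast nsq_one i.1.1 i.1.2

lemma abs_le_nsq (k : Z3) (j : Fin 3) : |(k j : ℝ)| ≤ (nsq k : ℝ) := by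
  have h1 : |k j| ≤ k j ^ 2 := by
    rw [← sq_abs (k j)]
    have h2 : 0 ≤ |k j| := abs_nonneg _
    rcases h2.eq_or_lt with h3 | h3
    · rw [← h3]; norm_num
    · nlinarith
  have h2 : k j ^ 2 ≤ nsq k :=
    Finset.single_le_sum (f := fun j => k j ^ 2) (fun j _ => sq_nonneg (k j)) (Finset.mem_univ j)
  exact_mod_cast h1.trans h2

lemma dt_cj_self (a : C3) : dt a (cj a) = ((∑ j, ‖a j‖ ^ 2 : ℝ) : ℂ) := by
  unfold dt cj
  push_cast
  refine Finset.sum_congr rfl fun j _ => ?_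
  rw [Complex.mul_conj, Complex.normSq_eq_norm_sq]
  push_cast
  rfl

lemma norm_h_le {h : Md → C3} (hh : Frame h) (i : Md) (j : Fin 3) : ‖h i j‖ ≤ 1 := by
  have h1 := hh.unit i
  rw [dt_cj_self] at h1
  have h2 : ∑ j, ‖h i j‖ ^ 2 = 1 := by exact_mod_cast h1
  have h3 : ‖h i j‖ ^ 2 ≤ ∑ j, ‖h i j‖ ^ 2 :=
    Finset.single_le_sum (f := fun j => ‖h i j‖ ^ 2) (fun j _ => sq_nonneg _) (Finset.mem_univ j)
  rw [h2] at h3
  have h4 : 0 ≤ ‖h i j‖ := norm_nonneg _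
  nlinarith

lemma norm_dt_le {a b : C3} {A B : ℝ} (hA : 0 ≤ A) (ha : ∀ j, ‖a j‖ ≤ A)
    (hb : ∀ j, ‖b j‖ ≤ B) : ‖dt a b‖ ≤ 3 * (A * B) := by
  unfold dt
  refine (norm_sum_le _ _).trans ?_
  have h1 : ∀ j ∈ (Finset.univ : Finset (Fin 3)), ‖a j * b j‖ ≤ A * B := by
    intro j _
    rw [norm_mul]
    exact mul_le_mul (ha j) (hb j) (norm_nonneg _) hA
  refine (Finset.sum_le_card_nsmul _ _ _ h1).trans ?_
  simp

lemma dt_comm (a b : C3) : dt a b = dt b a := by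
  unfold dt
  exact Finset.sum_congr rfl fun j _ => mul_comm _ _

lemma dt_kc_add (a : C3) (k l : Z3) : dt a (kc (k + l)) = dt a (kc k) + dt a (kc l) := by
  unfold dt kc
  rw [← Finset.sum_add_distrib]
  refine Finset.sum_congr rfl fun j _ => ?_
  rw [Pi.add_apply]
  push_cast
  ring

lemma size {h : Md → C3} (hh : Frame h) (i a b : Md) :
    ‖cK h i a b‖ ≤ (18 * Real.pi) * NM i ^ 1 := by
  have hpi := Real.pi_pos
  have hN := NM_one i
  unfold cK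
  split_ifs with hab
  · have h1 : dt (h a) (kc b.1.1) = dt (h a) (kc i.1.1) := by
      rw [← hab, dt_kc_add, dt_comm (h a) (kc a.1.1), hh.perp a, zero_add]
    rw [h1, norm_mul, norm_mul, norm_neg]
    have h2 : ‖(2 * Real.pi * Complex.I : ℂ)‖ = 2 * Real.pi := by
      rw [norm_mul, norm_mul, Complex.norm_I, mul_one, Complex.norm_real]
      rw [Real.norm_of_nonneg hpi.le]
      norm_num
    rw [h2]
    have h3 : ‖dt (h a) (kc i.1.1)‖ ≤ 3 * (1 * NM i) := by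
      refine norm_dt_le zero_le_one (fun j => norm_h_le hh a j) fun j => ?_
      unfold kc
      rw [Complex.norm_intCast]
      exact abs_le_nsq i.1.1 j
    have h4 : ‖dt (h b) (cj (h i))‖ ≤ 3 * (1 * 1) := by
      refine norm_dt_le zero_le_one (fun j => norm_h_le hh b j) fun j => ?_
      unfold cj
      rw [RCLike.norm_conj]
      exact norm_h_le hh i j
    calc 2 * Real.pi * ‖dt (h a) (kc i.1.1)‖ * ‖dt (h b) (cj (h i))‖
        ≤ 2 * Real.pi * (3 * (1 * NM i)) * (3 * (1 * 1)) := by gcongr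
      _ = (18 * Real.pi) * NM i ^ 1 := by ring
  · rw [norm_zero]
    positivity

lemma sumZ : Summable (fun n : ℤ => (1 + (n : ℝ) ^ 2)⁻¹) := by
  have h1 : Summable (fun n : ℤ => 1 / (n : ℝ) ^ 2) :=
    Real.summable_one_div_int_pow.2 (by norm_num)
  have h2 : Summable (fun n : ℤ => if n = 0 then (1 : ℝ) else 0) :=
    (hasSum_ite_eq 0 (1 : ℝ)).summable
  refine Summable.of_nonneg_of_le (fun n => by positivity) (fun n => ?_) (h1.add h2)
  split_ifs with hn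
  · subst hn; norm_num
  · have h3 : (0 : ℝ) < (n : ℝ) ^ 2 := by
      have : (n : ℝ) ≠ 0 := by exact_mod_cast hn
      positivity
    rw [add_zero, one_div]
    exact inv_anti₀ h3 (by linarith)

lemma summ : Summable (fun i : Md => (NM i ^ 3)⁻¹) := by
  let f : ℤ → ℝ := fun n => (1 + (n : ℝ) ^ 2)⁻¹
  have hf : Summable f := sumZ
  have hf0 : ∀ n, 0 ≤ f n := fun n => by positivity
  have h2 : Summable (fun p : ℤ × ℤ => f p.1 * f p.2) := hf.mul_of_nonneg hf hf0 hf0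
  have h20 : 0 ≤ (fun p : ℤ × ℤ => f p.1 * f p.2) := fun p => mul_nonneg (hf0 _) (hf0 _)
  have h3 : Summable (fun p : ℤ × (ℤ × ℤ) => f p.1 * (f p.2.1 * f p.2.2)) :=
    hf.mul_of_nonneg h2 hf0 h20
  have h30 : 0 ≤ (fun p : ℤ × (ℤ × ℤ) => f p.1 * (f p.2.1 * f p.2.2)) :=
    fun p => mul_nonneg (hf0 _) (mul_nonneg (hf0 _) (hf0 _))
  have hb : Summable (fun _ : Bool => (8 : ℝ)) := Summable.of_finite
  have h4 : Summable (fun p : Bool × (ℤ × (ℤ × ℤ)) => 8 * (f p.2.1 * (f p.2.2.1 * f p.2.2.2))) :=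
    hb.mul_of_nonneg h3 (fun _ => by norm_num) h30
  let e : Md → Bool × (ℤ × (ℤ × ℤ)) := fun i => (i.2, (i.1.1 0, (i.1.1 1, i.1.1 2)))
  have he : Function.Injective e := by
    rintro ⟨⟨k, hk⟩, s⟩ ⟨⟨k', hk'⟩, s'⟩ h
    simp only [e, Prod.mk.injEq] at h
    obtain ⟨rfl, h0, h1, h2⟩ := h
    have : k = k' := by
      funext j
      fin_cases j
      · exact h0
      · exact h1
      · exact h2
    subst this
    rfl
  refine Summable.of_nonneg_of_le (fun i => ?_) (fun i => ?_) (h4.comp_injective he)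
  · have := NM_one i
    positivity
  · have hN := NM_one i
    have hN' : NM i = (i.1.1 0 : ℝ) ^ 2 + (i.1.1 1 : ℝ) ^ 2 + (i.1.1 2 : ℝ) ^ 2 := by
      unfold NM nsq
      rw [Fin.sum_univ_three]
      push_cast
      ring
    have h0 : (0 : ℝ) ≤ (i.1.1 0 : ℝ) ^ 2 := sq_nonneg _
    have h1 : (0 : ℝ) ≤ (i.1.1 1 : ℝ) ^ 2 := sq_nonneg _
    have h2 : (0 : ℝ) ≤ (i.1.1 2 : ℝ) ^ 2 := sq_nonneg _
    show (NM i ^ 3)⁻¹ ≤ 8 * ((1 + (i.1.1 0 : ℝ) ^ 2)⁻¹ * ((1 + (i.1.1 1 : ℝ) ^ 2)⁻¹ *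
      (1 + (i.1.1 2 : ℝ) ^ 2)⁻¹))
    rw [← mul_inv, ← mul_inv, ← div_eq_mul_inv, inv_eq_one_div, div_le_div_iff₀ (by positivity)
      (by positivity), one_mul]
    generalize hx : (i.1.1 0 : ℝ) ^ 2 = x at *
    generalize hy : (i.1.1 1 : ℝ) ^ 2 = y at *
    generalize hz : (i.1.1 2 : ℝ) ^ 2 = z at *
    have hx' : 1 + x ≤ 2 * NM i := by linarith
    have hy' : 1 + y ≤ 2 * NM i := by linarith
    have hz' : 1 + z ≤ 2 * NM i := by linarith
    calc (1 + x) * ((1 + y) * (1 + z)) ≤ (2 * NM i) * ((2 * NM i) * (2 * NM i)) := by gcongr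
      _ = 8 * NM i ^ 3 := by ring

lemma αM_one (n : ℕ) : 1 ≤ αM n := by
  unfold αM
  exact_mod_cast al_pos n

theorem t_WTM : S_WTM := by
  intro hLV hCD h hh
  obtain ⟨-, -, -, h4, -, -, h7, -⟩ := hLV
  obtain ⟨-, -, -, hc, -, -⟩ := hCD
  refine ⟨NM_one, ⟨18 * Real.pi, 1, size hh⟩, ⟨3, summ⟩, ⟨2, 2, fun i hi => (h7 i hi).2⟩,
    ⟨1, 1, fun i hi => ?_⟩, ⟨2, fun j hj => ?_⟩⟩
  · have h1 := (h7 i hi).1
    have h2 := αM_one (lvM i)
    rw [one_mul, pow_one]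
    nlinarith
  · have h1 := (h4 j hj).1
    have h2 : NM j ≤ (lvM j : ℝ) := by
      unfold NM
      rw [h1]
      exact_mod_cast hc j
    refine h2.trans ?_
    have h3 : lvM j ≤ 2 ^ (lvM j + 1) :=
      (Nat.lt_two_pow_self).le.trans (Nat.pow_le_pow_right (by norm_num) (by omega))
    exact_mod_cast h3

end Pool.Agent.Y67.EF.WTM
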